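import Pool.Agent.K6.H49.DC.Red

/-!
# Minimum directed cycle decomposition of planar Eulerian digraphs is NP-hard

Definitions: `Pool/Agent/K6/H49/DC/Defs.lean` (digraphs, decompositions, planarity) and
`Pool/Agent/NPC/Defs.lean` (polynomial time, `NP`, NP-hardness).

The reduction is from 3SAT with `m` clauses and `3 m` variables, and the bound is `k = 7 m`.  The
digraph consists of `7 m` wires, closed walks through one common vertex `s` of out-degree `7 m`; so
a decomposition into `7 m` cycles is a decomposition into cycles through `s`, and it gives every
link between two gadgets of a wire one of `7 m` colours.  There are two kinds of gadgets.

* A crossing consists of two vertices joined by a pair of opposite arcs; both wires keep their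
  colours, which must be different (the pair of opposite arcs is not a cycle of the decomposition,
  as it avoids `s`).  It can be drawn such that the two wires cross, in the plane.
* An optional gadget is a single vertex.  The colours of the two wires are different, and the wires
  may exchange them.

Every variable `i` has two wires with the colours `B` and `A`, in four columns: up, down, down, up.
Between the two halves, at the top, there is an optional gadget of the two wires, so that one of the
inner columns has the colour `A`.  The wire of a clause runs through one row to the left and comes
back through the next row, in which the gadgets at the columns of its literals are optional, and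
finally it crosses itself, which is possible only if its colour has changed.  The colour `A` cannot
get into the row, since the row crosses the last column of the variable, which has the colour `A`.
So the colour can change only at a column which does not have the colour `A`, that is, at a true
literal.  Conversely, given a satisfying assignment, exchange the colours at one true literal of
every clause; the colour classes are cycles.
-/

namespace Pool.Agent.Results.MP_0ab4aa_lc.PlanarNPHard

open Pool.Agent.NPC Pool.Agent.K6.H49.DC

/-- **PLANAR-MIN-DCD is NP-hard**: the problem whether `D` is a planar Eulerian digraph with
`c(D) ≤ k` is NP-hard; moreover every language in NP has a polynomial-time many-one reduction to the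
question whether `c(D) ≤ k` all of whose values are planar Eulerian digraphs `D` with numbers
`k`. -/
theorem result :
    NPHardP (fun x : List (ℕ × ℕ) × ℕ => IsInput x ∧ MinDCD x) ∧
    ∀ L : Set (List Bool), InNP L → ∃ f : List Bool → List Bool, PolyTime f ∧
      ∀ x, ∃ (D : List (ℕ × ℕ)) (k : ℕ), f x = bits (D, k) ∧
        Loopless D ∧ Eulerian D ∧ Planar D ∧
        (x ∈ L ↔ CycLE (tl D) (hd D) k) := by
  refine ⟨hardI_planar.toNPHardP, fun L hL => ?_⟩
  obtain ⟨f, hf, hpr, hfL⟩ := hardPr_minDCD L hL
  exact ⟨fun x => bits (f x), PC.toPolyTime hf, fun x =>
    ⟨(f x).1, (f x).2, rfl, (hpr x).1, (hpr x).2.1, (hpr x).2.2, hfL x⟩⟩

end Pool.Agent.Results.MP_0ab4aa_lc.PlanarNPHard
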